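import Pool.Agent.Helper95.HV.Stmts
import Pool.Agent.Helper74.PN.MGS

set_option autoImplicit false

/-! # The sums of the cut off functions -/

namespace Pool.Agent.Helper55.HV

open MeasureTheory Filter Topology Pool.Agent.Helper95.PW Pool.Agent.Helper95.LN
open Pool.Agent.Helper95.HV Pool.Agent.Helper95.PW.MGS74

theorem nr_cont : Continuous (nr : R3 → ℝ) := by
  unfold nr
  fun_prop

/-- the partial derivatives of a sum of translates of a function of scale `r` -/
theorem scale_sum {M : ℕ} (X : Fin M → R3) (d K r : ℝ) (hd : 0 < d) (hX : Sep X d) (hK : 0 ≤ K)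
    (hr : 0 < r) (f : R3 → ℝ) (hf : Scale f K r) (h0 : ∀ y, d ≤ nr y → f y = 0) :
    Scale (fun y => ∑ j, f (y - X j)) K r := by
  have s1 : ∀ i, ContDiff ℝ (⊤ : ℕ∞) (pd i f) := fun i => pd_smooth i f hf.sm
  have s2 : ∀ i j, ContDiff ℝ (⊤ : ℕ∞) (pd i (pd j f)) := fun i j => pd_smooth i _ (s1 j)
  have s3 : ∀ i j l, ContDiff ℝ (⊤ : ℕ∞) (pd i (pd j (pd l f))) := fun i j l =>
    pd_smooth i _ (s2 j l)
  have z1 : ∀ i y, d ≤ nr y → pd i f y = 0 := fun i y hy => pd_zero d i f hf.sm h0 y hy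
  have z2 : ∀ i j y, d ≤ nr y → pd i (pd j f) y = 0 := fun i j y hy =>
    pd_zero d i _ (s1 j) (z1 j) y hy
  have z3 : ∀ i j l y, d ≤ nr y → pd i (pd j (pd l f)) y = 0 := fun i j l y hy =>
    pd_zero d i _ (s2 j l) (z2 j l) y hy
  have z4 : ∀ i j l m y, d ≤ nr y → pd i (pd j (pd l (pd m f))) y = 0 := fun i j l m y hy =>
    pd_zero d i _ (s3 j l m) (z3 j l m) y hy
  have e1 : ∀ i, pd i (fun y => ∑ j, f (y - X j)) = fun y => ∑ j, pd i f (y - X j) :=
    fun i => pd_sum X i f hf.sm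
  have e2 : ∀ i l, pd i (pd l (fun y => ∑ j, f (y - X j))) =
      fun y => ∑ j, pd i (pd l f) (y - X j) := fun i l => by
    rw [e1 l]
    exact pd_sum X i _ (s1 l)
  have e3 : ∀ i l m, pd i (pd l (pd m (fun y => ∑ j, f (y - X j)))) =
      fun y => ∑ j, pd i (pd l (pd m f)) (y - X j) := fun i l m => by
    rw [e2 l m]
    exact pd_sum X i _ (s2 l m)
  have e4 : ∀ i l m q, pd i (pd l (pd m (pd q (fun y => ∑ j, f (y - X j))))) =
      fun y => ∑ j, pd i (pd l (pd m (pd q f))) (y - X j) := fun i l m q => by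
    rw [e3 l m q]
    exact pd_sum X i _ (s3 l m q)
  refine ⟨?_, cs_sum X f hf.cs, ?_, ?_, ?_, ?_⟩
  · exact ContDiff.sum fun j _ => hf.sm.comp (contDiff_id.sub contDiff_const)
  · intro i y
    rw [e1 i]
    exact one_term X d hd hX y (fun j => pd i f (y - X j)) (fun j hj => z1 i _ hj)
      (fun t => |t| ≤ K) (by rw [abs_zero]; exact hK) (fun j => hf.d1 i _)
  · intro i l y
    rw [e2 i l]
    exact one_term X d hd hX y (fun j => pd i (pd l f) (y - X j)) (fun j hj => z2 i l _ hj)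
      (fun t => |t| ≤ K / r) (by rw [abs_zero]; positivity) (fun j => hf.d2 i l _)
  · intro i l m y
    rw [e3 i l m]
    exact one_term X d hd hX y (fun j => pd i (pd l (pd m f)) (y - X j))
      (fun j hj => z3 i l m _ hj)
      (fun t => |t| ≤ K / r ^ 2) (by rw [abs_zero]; positivity) (fun j => hf.d3 i l m _)
  · intro i l m q y
    rw [e4 i l m q]
    exact one_term X d hd hX y (fun j => pd i (pd l (pd m (pd q f))) (y - X j))
      (fun j hj => z4 i l m q _ hj)
      (fun t => |t| ≤ K / r ^ 3) (by rw [abs_zero]; positivity) (fun j => hf.d4 i l m q _)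

/-- near one of the nuclei only one term counts -/
theorem pd_near {M : ℕ} (X : Fin M → R3) (d : ℝ) (hd : 0 < d) (hX : Sep X d) (f : R3 → ℝ)
    (hf : ContDiff ℝ (⊤ : ℕ∞) f) (h0 : ∀ y, d ≤ nr y → f y = 0) (i : Fin 3) (j : Fin M) (y : R3)
    (hy : nr (y - X j) < d) : pd i (fun y => ∑ j, f (y - X j)) y = pd i f (y - X j) := by
  rw [pd_sum X i f hf]
  show ∑ l, pd i f (y - X l) = _
  rw [Finset.sum_eq_single j]
  · intro l _ hl
    apply pd_zero d i f hf h0
    by_contra hlt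
    exact hl (sep_one X d hd hX y l j (not_le.1 hlt) hy)
  · intro h
    exact absurd (Finset.mem_univ _) h

theorem FLD (hc : ST_CUT) : ST_FLD := by
  obtain ⟨K, hK, h1, h2⟩ := hc
  refine ⟨K, hK, fun M X d r ρ m hd hX hr hrρ hρd => ?_⟩
  have hρ : 0 < ρ := by linarith
  have hK0 : 0 ≤ K := by linarith
  obtain ⟨a1, a2, a3⟩ := h1 m ρ hρ
  obtain ⟨b1, b2, b3⟩ := h2 m r ρ hr hrρ
  have hz : ∀ y, d ≤ nr y → gm m ρ y = 0 := fun y hy => a3 y (by linarith)
  have hz2 : ∀ y, d ≤ nr y → gm m ρ y - gm m r y = 0 := fun y hy => b3 y (by linarith)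
  have e1 : gN X m ρ = fun y => ∑ j, gm m ρ (y - X j) := rfl
  have e2 : (fun y => gN X m ρ y - gN X m r y) =
      fun y => ∑ j, (fun z => gm m ρ z - gm m r z) (y - X j) := by
    funext y
    unfold gN
    rw [← Finset.sum_sub_distrib]
  refine ⟨?_, ?_, ?_, ?_, ?_⟩
  · rw [e1]
    exact scale_sum X d K ρ hd hX hK0 hρ _ a1 hz
  · rw [e2]
    exact scale_sum X d K r hd hX hK0 hr _ b1 hz2
  · intro j y hy i
    rw [e1, pd_near X d hd hX _ a1.sm hz i j y (by linarith)]
    have h3 : gm m ρ =ᶠ[𝓝 (y - X j)] fun z => z m := by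
      have h4 : {z : R3 | nr z < ρ} ∈ 𝓝 (y - X j) :=
        (isOpen_lt nr_cont continuous_const).mem_nhds hy
      filter_upwards [h4] with z hz4
      exact a2 z (le_of_lt hz4)
    unfold pd
    rw [h3.fderiv_eq]
    have h5 : HasFDerivAt (fun z : R3 => z m) (ContinuousLinearMap.proj (R := ℝ) m) (y - X j) :=
      hasFDerivAt_apply m _
    rw [h5.fderiv]
    simp [Pi.single_apply, eq_comm]
  · intro y hy i
    rw [e1, pd_sum X i _ a1.sm]
    show ∑ j, pd i (gm m ρ) (y - X j) = 0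
    exact Finset.sum_eq_zero fun j _ =>
      pd_zero (2 * ρ) i _ a1.sm (fun z hz => a3 z hz) _ (hy j).le
  · intro j y hy i
    rw [e2, pd_near X d hd hX _ b1.sm hz2 i j y (by linarith)]
    have h3 : (fun z => gm m ρ z - gm m r z) =ᶠ[𝓝 (y - X j)] fun _ => (0 : ℝ) := by
      have h4 : {z : R3 | nr z < r} ∈ 𝓝 (y - X j) :=
        (isOpen_lt nr_cont continuous_const).mem_nhds hy
      filter_upwards [h4] with z hz4
      exact b2 z hz4
    unfold pd
    rw [h3.fderiv_eq]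
    simp

end Pool.Agent.Helper55.HV
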